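import Mathlib
import Pool.Agent.W978.QM.Fin
import Pool.Agent.W753.QM.BR
import Pool.Agent.W397.QM.SM2
import Pool.Agent.W571.QM.Bil
import Pool.Agent.W735.QM.SM3
import Pool.Agent.W174.QM.SM1
import Pool.Agent.W82.QM.PAR
import Pool.Agent.W240.QM.Lat

/-!
The weak form of the conjecture of Manin for all smooth divisors `X` of type `(1,1,1,1)` in the
fourfold product of the projective line over the rational numbers (a deformation family of Fano
threefolds) and all big and nef line bundles `L`.

* `qf a P` is the value at `P` of the quadrilinear form with integer coefficients `a`; the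
  divisor `X` is given by `qf a P = 0`.
* `Smooth a`: there is no complex point of `X` at which all partial derivatives vanish.
* `InU a P`: the open set `U` of all points where the determinants `dt a k l` (of the bilinear form
  which the quadrilinear form becomes in two of its arguments) and the Cayley hyperdeterminants
  `disc a j k l` (of the trilinear form in three of its arguments) do not vanish.
* `Rep v`: `v` is the normalised primitive integer representative of a rational point of the
  projective line; its height is `nm v`, the maximum of the absolute values of the coordinates.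
* `fuj l` is the infimum of all `t` such that `t L + K` lies in the cone
  `x i + x j ≥ 0` for all `i ≠ j`, for `L = (l 0, l 1, l 2, l 3)` and `K = (-1,-1,-1,-1)`.

The theorem: `U` is not empty, and for all `l` with `l i ≥ 0`, at most one `l i` being zero, the
number of rational points of `U` with `∏ i, H (P i) ^ l i ≤ T` is finite and
at most `C T ^ (fuj l + ε)`.
-/

namespace Pool.Agent.Results.MP_18ea5f_nt.QuadrilinearThreefolds

open Pool.Agent.W978.QM

theorem result (a : (Fin 4 → Fin 2) → ℤ) (ha : Smooth a) :
    (∃ P : Fin 4 → Fin 2 → ℂ, (∀ i, P i ≠ 0) ∧ qf a P = 0 ∧ InU a P) ∧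
    ∀ l : Fin 4 → ℝ, (∀ i, 0 ≤ l i) → (∀ i j, i ≠ j → 0 < l i + l j) →
      ∀ ε : ℝ, 0 < ε → ∃ C : ℝ, ∀ T : ℝ, 1 ≤ T →
        {P : Fin 4 → Fin 2 → ℤ | (∀ i, Rep (P i)) ∧ qf a P = 0 ∧ InU a P ∧
          ∏ i, (nm (P i) : ℝ) ^ l i ≤ T}.Finite ∧
        ({P : Fin 4 → Fin 2 → ℤ | (∀ i, Rep (P i)) ∧ qf a P = 0 ∧ InU a P ∧
          ∏ i, (nm (P i) : ℝ) ^ l i ≤ T}.ncard : ℝ) ≤ C * T ^ (fuj l + ε) :=
  main Pool.Agent.W753.QM.br (Pool.Agent.W571.QM.bil Pool.Agent.W82.QM.par)
    (Pool.Agent.W240.QM.lat Pool.Agent.W82.QM.par)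
    (Pool.Agent.W174.QM.SM1.sm1 Pool.Agent.W753.QM.br)
    (Pool.Agent.W397.QM.sm2 Pool.Agent.W753.QM.br) Pool.Agent.W735.QM.SM3.sm3 a ha

end Pool.Agent.Results.MP_18ea5f_nt.QuadrilinearThreefolds
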