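import Mathlib
import Pool.Agent.W978.QN.Asm
import Pool.Agent.W509.QN.BR
import Pool.Agent.W597.QN.RK
import Pool.Agent.W60.QN.Cmp
import Pool.Agent.W571.QN.Nst
import Pool.Agent.W585.QN.DET
import Pool.Agent.W240.QN.PT
import Pool.Agent.W150.QN.R
import Pool.Agent.W735.QN.CD
import Pool.Agent.W236.QN.QA
import Pool.Agent.W101.QN.QB

/-!
The weak form of the conjecture of Manin for all smooth divisors `X` of type `(1,1,1)` in the
threefold product of the projective plane over the rational numbers (Fano fivefolds) and all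
big and nef line bundles `L`.

* `tf a P` is the value at `P` of the trilinear form with integer coefficients `a`; the
  divisor `X` is given by `tf a P = 0`.
* `Smooth a`: there is no complex point of `X` at which all partial derivatives vanish.
* `InU a P`: the open set `U` of all points where the determinants of the three `3 × 3` matrices
  `mt a k l P` (of the bilinear form which the trilinear form becomes in the arguments `k` and `l`)
  do not vanish.
* `Rep v`: `v` is the normalised primitive integer representative of a rational point of the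
  projective plane (`Prim v`: coprime coordinates, in Bezout form); its height is `nm v`, the
  maximum of the absolute values of the coordinates.
* `fuj l` is the infimum of all `t` such that `t L + K` is nef, i.e. `t l i - 2 ≥ 0` for all `i`,
  for `L = (l 0, l 1, l 2)` and `K = (-2,-2,-2)`.

The theorem: `U` is not empty, and for all `l` with `l i > 0` the number of rational points of `U`
with `∏ i, H (P i) ^ l i ≤ T` is finite and at most `C T ^ (fuj l + ε)`.
-/

namespace Pool.Agent.Results.MP_18ea5f_nt.TrilinearFivefolds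

open Pool.Agent.W978.QN

theorem result (a : (Fin 3 → Fin 3) → ℤ) (ha : Smooth a) :
    (∃ P : Fin 3 → Fin 3 → ℂ, (∀ i, P i ≠ 0) ∧ tf a P = 0 ∧ InU a P) ∧
    ∀ l : Fin 3 → ℝ, (∀ i, 0 < l i) →
      ∀ ε : ℝ, 0 < ε → ∃ C : ℝ, ∀ T : ℝ, 1 ≤ T →
        {P : Fin 3 → Fin 3 → ℤ | (∀ i, Rep (P i)) ∧ tf a P = 0 ∧ InU a P ∧
          ∏ i, (nm (P i) : ℝ) ^ l i ≤ T}.Finite ∧
        ({P : Fin 3 → Fin 3 → ℤ | (∀ i, Rep (P i)) ∧ tf a P = 0 ∧ InU a P ∧
          ∏ i, (nm (P i) : ℝ) ^ l i ≤ T}.ncard : ℝ) ≤ C * T ^ (fuj l + ε) :=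
  main Pool.Agent.W509.QN.br Pool.Agent.W150.QN.primPlane Pool.Agent.W735.QN.t_CD
    Pool.Agent.W236.QN.qa Pool.Agent.W101.QN.qb Pool.Agent.W60.QN.t_CMP Pool.Agent.W571.QN.nul
    (Pool.Agent.W597.QN.rk Pool.Agent.W509.QN.br)
    (Pool.Agent.W585.QN.main Pool.Agent.W509.QN.br
      (Pool.Agent.W597.QN.rk Pool.Agent.W509.QN.br))
    Pool.Agent.W240.QN.PT.pt a ha

end Pool.Agent.Results.MP_18ea5f_nt.TrilinearFivefolds
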