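import Mathlib
import Pool.Agent.W978.QP.As
import Pool.Agent.W721.QP.RK
import Pool.Agent.W721.QP.Cmp
import Pool.Agent.W249.QPNUL
import Pool.Agent.W51.QP.Content
import Pool.Agent.W583.QP.Det
import Pool.Agent.W135.QP.PT
import Pool.Agent.W641.QP.Cls
import Pool.Agent.W737.QP.Cel
import Pool.Agent.W372.QP.Root
import Pool.Agent.W284.QP.IVA
import Pool.Agent.W899.QP.Ivb
import Pool.Agent.W150.QN.R
import Pool.Agent.W735.QN.CD
import Pool.Agent.W236.QN.QA
import Pool.Agent.W101.QN.QB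

/-!
The weak form of the conjecture of Manin for all smooth divisors `X` of type `(1,1,1)` in the
product of a projective line and two projective planes over the rational numbers (Fano fourfolds)
and all big and nef line bundles `L`.

* `fv b p q r` is the value at `(p, q, r)` of the trilinear form with integer coefficients `b`;
  the divisor `X` is given by `fv b p q r = 0`.
* `Smooth b`: there is no complex point of `X` at which all partial derivatives vanish.
* `InU b p q r`: the open set `U` of all points where the determinant of the `3 × 3` matrix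
  `mp b p` of the bilinear form in `q`, `r` does not vanish, where the two linear forms in `r`
  (with coefficient vectors `av b 0 q`, `av b 1 q`) which multiply the coordinates of `p` are not
  proportional (`cr` is the cross product), the same with `q` and `r` exchanged (`tb b`), and where
  the two forms do not both vanish at `r` (i.e. the point is not on the exceptional divisor of the
  blow-up `X → ℙ² × ℙ²`).
* `Rep2 v` and `Rep v`: `v` is the normalised primitive integer representative of a rational point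
  of the line or the plane; `nm2 v` and `nm v` are the heights, i.e. the maximum of the absolute
  values of the coordinates.
* `fuj l` is the infimum of all `t` such that `t L + K` lies in the cone generated by the classes
  `(1,0,0)`, `(0,1,0)`, `(0,0,1)` and `(-1,1,1)` (exceptional divisor), for `L = (l 0, l 1, l 2)`
  and `K = (-1,-2,-2)`; this cone is given by the four inequalities `x₁ ≥ 0`, `x₂ ≥ 0`,
  `x₀ + x₁ ≥ 0`, `x₀ + x₂ ≥ 0`.

The theorem: `U` is not empty, and for all `l` with `l 0 ≥ 0`, `l 1 > 0`, `l 2 > 0` the number of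
rational points of `U` with `H(p) ^ l 0 * H(q) ^ l 1 * H(r) ^ l 2 ≤ T` is finite and at most
`C T ^ (fuj l + ε)`.
-/

namespace Pool.Agent.Results.MP_18ea5f_nt.TrilinearFourfolds

open Pool.Agent.W978.QP
open Pool.Agent.W978.QN (nm Rep)

theorem result (b : Fin 2 → Fin 3 → Fin 3 → ℤ) (hb : Smooth b) :
    (∃ (p : Fin 2 → ℂ) (q r : Fin 3 → ℂ), p ≠ 0 ∧ q ≠ 0 ∧ r ≠ 0 ∧ fv b p q r = 0 ∧
      InU b p q r) ∧
    ∀ l : Fin 3 → ℝ, 0 ≤ l 0 → 0 < l 1 → 0 < l 2 →
      ∀ ε : ℝ, 0 < ε → ∃ C : ℝ, ∀ T : ℝ, 1 ≤ T →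
        {x : (Fin 2 → ℤ) × (Fin 3 → ℤ) × (Fin 3 → ℤ) | Rep2 x.1 ∧ Rep x.2.1 ∧ Rep x.2.2 ∧
          fv b x.1 x.2.1 x.2.2 = 0 ∧ InU b x.1 x.2.1 x.2.2 ∧
          (nm2 x.1 : ℝ) ^ l 0 * (nm x.2.1 : ℝ) ^ l 1 * (nm x.2.2 : ℝ) ^ l 2 ≤ T}.Finite ∧
        ({x : (Fin 2 → ℤ) × (Fin 3 → ℤ) × (Fin 3 → ℤ) | Rep2 x.1 ∧ Rep x.2.1 ∧ Rep x.2.2 ∧
          fv b x.1 x.2.1 x.2.2 = 0 ∧ InU b x.1 x.2.1 x.2.2 ∧
          (nm2 x.1 : ℝ) ^ l 0 * (nm x.2.1 : ℝ) ^ l 1 * (nm x.2.2 : ℝ) ^ l 2 ≤ T}.ncard : ℝ) ≤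
          C * T ^ (fuj l + ε) :=
  have hRK := Pool.Agent.W721.QP.RK.rk
  have hDET := Pool.Agent.W583.QP.det hRK
  main Pool.Agent.W150.QN.primPlane Pool.Agent.W735.QN.t_CD
    Pool.Agent.W236.QN.qa Pool.Agent.W101.QN.qb Pool.Agent.W721.QP.t_CMP
    Pool.Agent.W249.QPNUL.nul hRK Pool.Agent.W641.QP.cls Pool.Agent.W737.QP.Cel.main
    Pool.Agent.W51.QP.t_CON
    (inv_of (Pool.Agent.W372.QP.root hRK hDET) hDET Pool.Agent.W284.QP.IVA.main
      Pool.Agent.W899.QP.ivb)
    hDET Pool.Agent.W135.QP.PT.pt b hb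

end Pool.Agent.Results.MP_18ea5f_nt.TrilinearFourfolds
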